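import Mathlib
import Pool.Agent.H296R2.LE.Main

open Polynomial

namespace Pool.Agent.Results.MP_5a4862_nt.LeftEdge

/-- Speiser type theorem for strips. Let `P` be a nonzero polynomial, `0 < a ≤ 1/2`, and `g` a
function holomorphic in `|Re s| < a` which in every smaller strip `|Re s| ≤ b` is `O((Im s)^κ)` with
some `κ < 1/2 - b`. Then the zero-free half-plane problem for `ζ` is equivalent to the same problem
for the left edge of the solutions of `P(d/ds) ζ(s) = g(s)`, with the same edge. -/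
theorem result (P : ℂ[X]) (hP : P ≠ 0) (a : ℝ) (ha0 : 0 < a) (ha : a ≤ 1 / 2) (g : ℂ → ℂ)
    (hg : DifferentiableOn ℂ g {s : ℂ | |s.re| < a})
    (hg2 : ∀ b : ℝ, b < a → ∃ κ : ℝ, κ < 1 / 2 - b ∧ ∃ C : ℝ, ∀ s : ℂ, |s.re| ≤ b → 1 ≤ s.im →
      ‖g s‖ ≤ C * s.im ^ κ) :
    ((∃ σ₀ : ℝ, 1 / 2 < σ₀ ∧ σ₀ < 1 ∧ ∀ s : ℂ, σ₀ ≤ s.re → riemannZeta s ≠ 0) ↔
      ∃ b : ℝ, 0 < b ∧ b ≤ a ∧ {s : ℂ | |s.re| < b ∧ 0 < s.im ∧
        ∑ j ∈ Finset.range (P.natDegree + 1), P.coeff j * iteratedDeriv j riemannZeta s = g s}.Finite) ∧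
    ((∀ b : ℝ, b < a → {s : ℂ | 1 - b < s.re ∧ riemannZeta s = 0}.Finite) ↔
      ∀ b : ℝ, b < a → {s : ℂ | |s.re| < b ∧ 0 < s.im ∧
        ∑ j ∈ Finset.range (P.natDegree + 1), P.coeff j * iteratedDeriv j riemannZeta s = g s}.Finite) :=
  ⟨Pool.Agent.H296R2.LE.main_q1 P hP ha0 ha hg hg2, Pool.Agent.H296R2.LE.main_iff P hP ha0 ha hg hg2⟩

end Pool.Agent.Results.MP_5a4862_nt.LeftEdge
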