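import Pool.Agent.H295R2.Nic.Asm4
import Pool.Agent.H519R2.NicC1
import Pool.Agent.H834R2.NicUpper
import Pool.Agent.H881R2.Nic.LoShort
import Pool.Agent.H131R2.NicLoLong
import Pool.Agent.H862R2.RobCount
import Pool.Agent.H747R2.NicN1
import Pool.Agent.H512R2.NicLow
import Pool.Agent.H804R2.Nic.NicUp
import Pool.Agent.H25R2.NicN2
import Pool.Agent.H231R2.Nic.N3
import Pool.Agent.H20R2.NT.PsiLog
import Pool.Agent.H379R2.NicHEq
import Pool.Agent.H972R2.NL.Loc
import Pool.Agent.H89R2.NicOscD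
import Pool.Agent.H57R2.NicK.Mean
import Pool.Agent.H295R2.Nic.N6

/-!
# The number of exceptions to Robin's and Nicolas' inequalities

Let `Θ` be the supremum of the real parts of the zeros of the Riemann zeta function in the critical strip.
Unconditionally:

* if `Θ > 1/2`, the number of exceptions `n ≤ x` to Robin's inequality `σ(n) < e^γ n log log n` is
  `exp((log x) ^ ((1 + Θ)/2 + o(1)))`; so there is a zero-free half-plane (Q1) if and only if, for some `δ > 0`,
  there are at most `exp((log x) ^ (1 - δ))` exceptions up to `x` for arbitrarily large `x`, and the Riemann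
  hypothesis holds if and only if this is true for every `δ < 1/4`;
* the number of integers `3 ≤ n ≤ x` with `n/φ(n) ≥ e^γ log log n` (Nicolas) is
  `exp((log x) ^ ((1 + Θ)/2 + o(1)))`; the same for `n/φ(n) ≥ e^γ log log n (1 + c (log n)^(-κ))`, `c > 0`,
  `κ > 1 - Θ`, while for `c > 0`, `κ < 1 - Θ` there are only finitely many such `n`;
  for `c < 0` the number is `exp((log x) ^ (1 - min(κ, 1 - Θ)/2 + o(1)))`.
-/

set_option autoImplicit false

open Filter Topology

namespace Pool.Agent.Results.MP_5a4862_nt.RobinExceptions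

/-- `Θ`: the supremum of the real parts of the zeros of the Riemann zeta function in the critical strip. -/
noncomputable def Theta : ℝ :=
  sSup (Complex.re '' {s : ℂ | riemannZeta s = 0 ∧ 0 < s.re ∧ s.re < 1})

/-- `σ(n) ≥ e^γ n log log n`: `n` is an exception to Robin's inequality -/
def RobinException (n : ℕ) : Prop :=
  Real.exp Real.eulerMascheroniConstant * n * Real.log (Real.log n) ≤ (ArithmeticFunction.sigma 1 n : ℝ)

/-- `n/φ(n) ≥ e^γ log log n · (1 + c (log n)^(-κ))` -/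
def NicolasException (c κ : ℝ) (n : ℕ) : Prop :=
  Real.exp Real.eulerMascheroniConstant * Real.log (Real.log n) * (1 + c * (Real.log n) ^ (-κ)) ≤
    (n : ℝ) / Nat.totient n

/-- the number of integers `3 ≤ n ≤ x` with the property `P` -/
noncomputable def count (P : ℕ → Prop) (x : ℝ) : ℕ := Set.ncard {n : ℕ | 3 ≤ n ∧ (n : ℝ) ≤ x ∧ P n}

/-- `count P x = exp((log x)^(a + o(1)))` as `x → ∞`: `log log (count P x) / log log x → a` -/
def HasExponent (P : ℕ → Prop) (a : ℝ) : Prop :=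
  Tendsto (fun x : ℝ => Real.log (Real.log (count P x)) / Real.log (Real.log x)) atTop (𝓝 a)

theorem result :
    -- the number of exceptions to Robin's inequality
    (1 / 2 < Theta → HasExponent RobinException ((1 + Theta) / 2)) ∧
    ((∃ σ₀ : ℝ, 1 / 2 < σ₀ ∧ σ₀ < 1 ∧ ∀ s : ℂ, σ₀ ≤ s.re → riemannZeta s ≠ 0) ↔
      ∃ δ : ℝ, 0 < δ ∧ ∃ᶠ x : ℝ in atTop, (count RobinException x : ℝ) ≤ Real.exp ((Real.log x) ^ (1 - δ))) ∧
    (RiemannHypothesis ↔ ∀ ε : ℝ, 0 < ε →
      ∃ᶠ x : ℝ in atTop, (count RobinException x : ℝ) ≤ Real.exp ((Real.log x) ^ (3 / 4 + ε))) ∧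
    -- the number of exceptions to the Nicolas inequality and its relaxed and strengthened forms
    (∀ κ : ℝ, HasExponent (NicolasException 0 κ) ((1 + Theta) / 2)) ∧
    (∀ c κ : ℝ, c < 0 → 0 < κ → HasExponent (NicolasException c κ) (1 - min κ (1 - Theta) / 2)) ∧
    (∀ c κ : ℝ, 0 < c → 1 - Theta < κ → HasExponent (NicolasException c κ) ((1 + Theta) / 2)) ∧
    (∀ c κ : ℝ, 0 < c → 0 < κ → κ < 1 - Theta → {n : ℕ | 3 ≤ n ∧ NicolasException c κ n}.Finite) := by
  have hTh : Theta = Pool.Agent.H295R2.zetaSup := rfl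
  have hLD := Pool.Agent.H747R2.NicN1.logDerB
  have hPsi := Pool.Agent.H25R2.NicN2.psiB hLD
  have hThe := Pool.Agent.H231R2.Nic.thetaB_of hPsi
  have hPL := Pool.Agent.H20R2.NT.psiLog
  have hHE := Pool.Agent.H379R2.NicHEq.hEq_of_psiB hPsi
  have hLoc := Pool.Agent.H972R2.NL.locMain hPsi hHE
  have hMean := Pool.Agent.H57R2.NicK.meanK hPsi hPL hHE Pool.Agent.H295R2.Nic.realNZ
  have hO := Pool.Agent.H89R2.NicOsc.osc hPL hMean hLoc
  have hNL := Pool.Agent.H512R2.NicLow.nicLow hPL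
  have hNU := Pool.Agent.H804R2.Nic.nicUp hThe
  have hU := Pool.Agent.H834R2.NicUpper.upper Pool.Agent.H519R2.NicC1.struct
  have hS := Pool.Agent.H881R2.Lo.loShort
  have hL := Pool.Agent.H131R2.NicLoLong.loLong
  have hRS := Pool.Agent.H862R2.Rob.robShort
  have hRL := Pool.Agent.H862R2.Rob.robLong
  rw [hTh]
  refine ⟨fun h => ?_, ?_, ?_, fun κ => ?_, fun c κ hc hκ => ?_, fun c κ hc hκ => ?_,
    fun c κ hc hκ0 hκ => ?_⟩
  · exact Pool.Agent.H295R2.Nic.robin_limit hThe hRS hRL hO hNL hNU hU h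
  · exact Pool.Agent.H295R2.Nic.half_plane_iff_robin hThe hRS hRL hO hNL hNU hU
  · exact Pool.Agent.H295R2.Nic.rh_iff_robin hThe hRS hRL hO hNL hNU hU
  · exact Pool.Agent.H295R2.Nic.nicolas_zero hThe hS hL hO hNL hNU hU κ
  · exact Pool.Agent.H295R2.Nic.nicolas_neg hThe hS hL hO hNL hNU hU hc hκ
  · exact Pool.Agent.H295R2.Nic.nicolas_pos hThe hS hL hO hNL hNU hU hc.le hκ
  · exact Pool.Agent.H295R2.Nic.finite_exc hPL Pool.Agent.H519R2.NicC1.maxN hNU hc hκ0 hκ

end Pool.Agent.Results.MP_5a4862_nt.RobinExceptions
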