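import Pool.Agent.H986R2.TR.All

set_option autoImplicit false

/-!
# Zeros of `ξ(s + h) + ω ξ(s - h)` and zero-free half-planes of the Riemann zeta function
-/

namespace Pool.Agent.Results.MP_5a4862_nt.Translates

open Complex

/-- Riemann's function `ξ(s) = s (s - 1) π^(-s/2) Γ(s/2) ζ(s) / 2`. -/
noncomputable def xi (s : ℂ) : ℂ := s * (s - 1) / 2 * completedRiemannZeta₀ s + 1 / 2

/-- There are `σ₀ ∈ (1/2, 1)` with `ζ(s) ≠ 0` for `Re s ≥ σ₀` (question Q1). -/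
def Q1 : Prop := ∃ σ₀ : ℝ, 1 / 2 < σ₀ ∧ σ₀ < 1 ∧ ∀ s : ℂ, σ₀ ≤ s.re → riemannZeta s ≠ 0

/-- All zeros of large height of `ξ(s + h) + ω ξ(s - h)` are in the strip `|Re s - 1/2| ≤ y`. -/
def Strip (h : ℝ) (ω : ℂ) (y : ℝ) : Prop :=
  ∃ T : ℝ, ∀ s : ℂ, xi (s + h) + ω * xi (s - h) = 0 → T ≤ |s.im| → |s.re - 1 / 2| ≤ y

/-- Zeta has no zeros of large height to the right of `Re s = σ`. -/
def Free (σ : ℝ) : Prop := ∃ T : ℝ, ∀ s : ℂ, σ < s.re → T ≤ s.im → riemannZeta s ≠ 0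

/-- The order of zeta on the critical line is at most `μ`. -/
def Order (μ : ℝ) : Prop := ∀ ε : ℝ, 0 < ε → ∃ C : ℝ, 0 < C ∧ ∀ t : ℝ, 2 ≤ t →
  ‖riemannZeta (1 / 2 + t * I)‖ ≤ C * t ^ (μ + ε)

open Pool.Agent.H986R2.TR in
theorem result :
    -- every `h` and `ω`
    (∀ (h : ℝ) (ω : ℂ), 0 < h → h < 1 / 2 → ‖ω‖ = 1 →
      (Q1 ↔ ∃ y : ℝ, y < 1 / 2 - h ∧ Strip h ω y)) ∧
    (Q1 ↔ ∃ h : ℝ, ∃ ω : ℂ, 0 < h ∧ h < 1 / 2 ∧ ‖ω‖ = 1 ∧ Strip h ω 0) ∧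
    -- the exact width of the strip
    (∀ (h y : ℝ) (ω₁ ω₂ : ℂ), 0 < h → 0 ≤ y → h + y < 1 / 2 → ‖ω₁‖ = 1 → ‖ω₂‖ = 1 → ω₁ ≠ ω₂ →
      ((∀ ε : ℝ, 0 < ε → Strip h ω₁ (y + ε) ∧ Strip h ω₂ (y + ε)) ↔
        ∀ ε : ℝ, 0 < ε → Free (1 / 2 + h + y + ε))) ∧
    -- zeros on the line
    (∀ h : ℝ, 0 ≤ h → h < 1 / 2 →
      ((∀ h' : ℝ, h < h' → h' < 1 / 2 → Strip h' 1 0 ∧ Strip h' (-1) 0) ↔
        ∀ ε : ℝ, 0 < ε → Free (1 / 2 + h + ε))) ∧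
    (∀ σ h : ℝ, 1 / 2 ≤ σ → σ < 1 → 0 < h → h ≤ 1 / 2 → Free σ → ∀ ω : ℂ, ‖ω‖ = 1 →
      (σ - 1 / 2 < h → Strip h ω 0) ∧ ∀ ε : ℝ, 0 < ε → Strip h ω (max (σ - 1 / 2 - h) 0 + ε)) ∧
    -- one value of `ω`
    (∀ (μ h y σ : ℝ) (ω : ℂ), Order μ → 0 < h → h < 1 / 2 → 0 ≤ y → ‖ω‖ = 1 → Strip h ω y →
      1 / 2 + h + y < σ → 1 / 2 + 2 * μ < σ → Free σ) := by
  obtain ⟨H1, H2, -, H4⟩ := tfinT
  obtain ⟨G1, G2, G3⟩ := tfin2T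
  have hfree : ∀ θ : ℝ, θ < 1 → (∀ s : ℂ, θ < s.re → riemannZeta s ≠ 0) → Q1 := by
    intro θ hθ hz
    refine ⟨max ((θ + 1) / 2) (3 / 4), ?_, ?_, ?_⟩
    · exact lt_of_lt_of_le (by norm_num) (le_max_right _ _)
    · exact max_lt (by linarith) (by norm_num)
    · intro s hs
      exact hz s (lt_of_lt_of_le (lt_of_lt_of_le (by linarith) (le_max_left _ _)) hs)
  have hfree2 : Q1 → ∃ θ : ℝ, θ < 1 ∧ ∀ s : ℂ, θ < s.re → riemannZeta s ≠ 0 := by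
    rintro ⟨σ, h1, h2, h3⟩
    exact ⟨σ, h2, fun s hs => h3 s hs.le⟩
  have hInS : ∀ (h : ℝ) (ω : ℂ) (y : ℝ), Strip h ω y ↔ InS h ω y := fun h ω y => Iff.rfl
  have hOn : ∀ (h : ℝ) (ω : ℂ), Strip h ω 0 ↔ OnL h ω := by
    intro h ω
    constructor
    · rintro ⟨T, hT⟩
      refine ⟨T, fun s hs hs2 => ?_⟩
      have := hT s hs hs2
      have h1 : |s.re - 1 / 2| = 0 := le_antisymm this (abs_nonneg _)
      linarith [abs_eq_zero.1 h1]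
    · rintro ⟨T, hT⟩
      refine ⟨T, fun s hs hs2 => ?_⟩
      rw [hT s hs hs2]
      simp
  have hFmono : ∀ σ σ' : ℝ, σ ≤ σ' → Free σ → Free σ' := by
    rintro σ σ' h1 ⟨T, hT⟩
    exact ⟨T, fun s hs => hT s (by linarith)⟩
  have hSmono : ∀ (h : ℝ) (ω : ℂ) (y y' : ℝ), y ≤ y' → Strip h ω y → Strip h ω y' := by
    rintro h ω y y' h1 ⟨T, hT⟩
    exact ⟨T, fun s hs hs2 => (hT s hs hs2).trans h1⟩
  have hfwd : ∀ σ h : ℝ, 1 / 2 ≤ σ → σ < 1 → 0 < h → h ≤ 1 / 2 → Free σ → ∀ ω : ℂ, ‖ω‖ = 1 →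
      (σ - 1 / 2 < h → Strip h ω 0) ∧
        ∀ ε : ℝ, 0 < ε → Strip h ω (max (σ - 1 / 2 - h) 0 + ε) := by
    rintro σ h h1 h2 h3 h4 ⟨T, hT⟩ ω hω
    have hZ : ZF (σ - 1 / 2) T := fun s hs => hT s (by linarith)
    refine ⟨fun h5 => ?_, fun ε hε => ?_⟩
    · exact (hOn h ω).2 (H2 (σ - 1 / 2) h ω (by linarith) h5 h4 hω ⟨T, hZ⟩)
    · have h6 := le_max_left (σ - 1 / 2 - h) 0
      have h7 := le_max_right (σ - 1 / 2 - h) 0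
      exact G1 (σ - 1 / 2) h (max (σ - 1 / 2 - h) 0 + ε) ω (by linarith) (by linarith) h3 h4
        (by linarith) (by linarith) hω ⟨T, hZ⟩
  have htwo : ∀ (h y σ : ℝ) (ω₁ ω₂ : ℂ), 0 < h → h < 1 / 2 → 0 ≤ y → ‖ω₁‖ = 1 → ‖ω₂‖ = 1 →
      ω₁ ≠ ω₂ → Strip h ω₁ y → Strip h ω₂ y → 1 / 2 + h + y < σ → Free σ := by
    intro h y σ ω₁ ω₂ h1 h2 h3 h4 h5 h6 h7 h8 h9
    obtain ⟨T, hT⟩ := two h (σ - 1 / 2) y ω₁ ω₂ h1 h2 h3 h4 h5 h6 h7 h8 (by linarith)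
    exact ⟨T, fun s hs => hT s (by linarith)⟩
  refine ⟨?_, ⟨?_, ?_⟩, ?_, ?_, hfwd, ?_⟩
  · intro h ω hh hh2 hω
    constructor
    · intro hQ
      exact (G3 h ω hh hh2 hω).2 (hfree2 hQ)
    · intro hQ
      obtain ⟨θ, h1, h2⟩ := (G3 h ω hh hh2 hω).1 hQ
      exact hfree θ h1 h2
  · intro hQ
    obtain ⟨h, ω, h1, h2, h3, h4⟩ := H4.2 (hfree2 hQ)
    exact ⟨h, ω, h1, h2, h3, (hOn h ω).2 h4⟩
  · rintro ⟨h, ω, h1, h2, h3, h4⟩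
    obtain ⟨θ, h5, h6⟩ := H4.1 ⟨h, ω, h1, h2, h3, (hOn h ω).1 h4⟩
    exact hfree θ h5 h6
  · intro h y ω₁ ω₂ h1 h2 h3 h4 h5 h6
    constructor
    · intro hS ε hε
      obtain ⟨a, b⟩ := hS (ε / 2) (by linarith)
      exact htwo h (y + ε / 2) _ ω₁ ω₂ h1 (by linarith) (by linarith) h4 h5 h6 a b (by linarith)
    · intro hF
      have key : ∀ ω : ℂ, ‖ω‖ = 1 → ∀ ε : ℝ, 0 < ε → Strip h ω (y + ε) := by
        intro ω hω ε hε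
        obtain ⟨δ, hδ0, hδ1, hδ2⟩ : ∃ δ : ℝ, 0 < δ ∧ δ ≤ ε / 2 ∧ δ < 1 / 2 - h - y :=
          ⟨min (ε / 2) ((1 / 2 - h - y) / 2), lt_min (by linarith) (by linarith), min_le_left _ _,
            lt_of_le_of_lt (min_le_right _ _) (by linarith)⟩
        have h7 := (hfwd (1 / 2 + h + y + δ) h (by linarith) (by linarith) h1 (by linarith)
          (hF δ hδ0) ω hω).2 (ε / 2) (by linarith)
        refine hSmono h ω _ _ ?_ h7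
        have h8 : max (1 / 2 + h + y + δ - 1 / 2 - h) 0 ≤ y + δ := max_le (by linarith) (by linarith)
        linarith
      exact fun ε hε => ⟨key ω₁ h4 ε hε, key ω₂ h5 ε hε⟩
  · intro h h1 h2
    constructor
    · intro hS ε hε
      obtain ⟨δ, hδ0, hδ1, hδ2⟩ : ∃ δ : ℝ, 0 < δ ∧ δ < ε ∧ δ < 1 / 2 - h :=
        ⟨min (ε / 2) ((1 / 2 - h) / 2), lt_min (by linarith) (by linarith),
          lt_of_le_of_lt (min_le_left _ _) (by linarith),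
            lt_of_le_of_lt (min_le_right _ _) (by linarith)⟩
      obtain ⟨a, b⟩ := hS (h + δ) (by linarith) (by linarith)
      refine htwo (h + δ) 0 _ 1 (-1) (by linarith) (by linarith) le_rfl (by simp) (by simp) ?_ a b
        (by linarith)
      intro h3
      have := congrArg Complex.re h3
      norm_num at this
    · intro hF h' h3 h4
      have h5 : Free (1 / 2 + h + (h' - h) / 2) := hF ((h' - h) / 2) (by linarith)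
      have key : ∀ ω : ℂ, ‖ω‖ = 1 → Strip h' ω 0 := fun ω hω =>
        (hfwd (1 / 2 + h + (h' - h) / 2) h' (by linarith) (by linarith) (by linarith) h4.le h5
          ω hω).1 (by linarith)
      exact ⟨key 1 (by simp), key (-1) (by simp)⟩
  · rintro μ h y σ ω h1 h2 h3 h4 h5 h6 h7 h8
    obtain ⟨T, hT⟩ := G2 μ h (σ - 1 / 2) y ω h1 h2 h3 h4 h5 h6 (by linarith) (by linarith)
    exact ⟨T, fun s hs => hT s (by linarith)⟩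

end Pool.Agent.Results.MP_5a4862_nt.Translates
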